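import Pool.Agent.P.MP_f9c8fc_ag.Main

/-! A singular Calogero-Moser space with non-zero cohomology in odd degree. -/

open Pool.Agent.P.MP_f9c8fc_ag

namespace Pool.Agent.Results.MP_f9c8fc_ag.OddCohomology

/-- There is a finite reflection group `W` in `GL_3(ℂ)` and a parameter `c` such that the
Calogero-Moser space is singular and has `H^5 ≠ 0`. -/
theorem result : ∃ D : Data (Fin 3 → ℂ), D.Valid ∧ D.Bad 5 := main

end Pool.Agent.Results.MP_f9c8fc_ag.OddCohomology
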